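import Mathlib
import Pool.Agent.Lib.MP_323cd4_co.Joint

/-!
Seymour's question on traces of products of tournament-like matrices: at least `n / r` matrices,
in the ranges `n ≤ 2.633 r + 1.35` and `3 r < n ≤ max (3.23 r + 1) (3.154 r + 1.8)`.
-/

set_option autoImplicit false

namespace Pool.Agent.Results.MP_323cd4_co.ExactLengthThreeAndFour

/-- Let `n, r ≥ 1`, `K ≥ n / r`, and let `A_1, …, A_K` be `n × n` matrices with entries `0` and `1`,
unit diagonal, no two opposite off-diagonal ones and all row sums at least `r + 1`. If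
`n ≤ 2.633 r + 1.35`, or if `K ≥ 4` and `n ≤ 3.23 r + 1` or `n ≤ 3.154 r + 1.8`, then the trace
of `A_1 ⋯ A_K` is greater than `n`. -/
theorem result :
    ∀ n r K : ℕ, 1 ≤ n → 1 ≤ r → n ≤ K * r →
      (1000 * n ≤ 2633 * r + 1350 ∨
        (4 ≤ K ∧ (1000 * n ≤ 3230 * r + 1000 ∨ 1000 * n ≤ 3154 * r + 1800))) →
      ∀ A : Fin K → Matrix (Fin n) (Fin n) ℕ,
        (∀ k i j, A k i j = 0 ∨ A k i j = 1) →
        (∀ k i, A k i i = 1) →
        (∀ k i j, i ≠ j → A k i j = 1 → A k j i ≠ 1) →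
        (∀ k i, r + 1 ≤ ∑ j, A k i j) →
        n < Matrix.trace (List.ofFn A).prod :=
  fun n r K hn hr hK h A h01 hd ha hrow =>
    Pool.Agent.Lib.MP_323cd4_co.Joint.main n r K hn hr hK h A h01 hd ha hrow

end Pool.Agent.Results.MP_323cd4_co.ExactLengthThreeAndFour
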