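import Mathlib
import Pool.Agent.Lib.MP_323cd4_co.Five

/-!
Seymour's question on traces of products of tournament-like matrices: five matrices.
-/

set_option autoImplicit false

namespace Pool.Agent.Results.MP_323cd4_co.FiveMatrices

/-- Let `A_1, …, A_5` be `n × n` matrices with entries `0` and `1`, unit diagonal and no
two opposite off-diagonal ones, with all row sums at least `r + 1`. If `n ≤ 2 r + 1 + m` where
`4 m ^ 2 + 1 < 12 r (r + 1) + 4 m`, then the trace of `A_1 ⋯ A_5` is greater than `n`. -/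
theorem result :
    ∀ n r m : ℕ, 1 ≤ n → 1 ≤ r → n ≤ 2 * r + 1 + m →
      4 * m ^ 2 + 1 < 12 * r * (r + 1) + 4 * m →
      ∀ A : Fin 5 → Matrix (Fin n) (Fin n) ℕ,
        (∀ k i j, A k i j = 0 ∨ A k i j = 1) →
        (∀ k i, A k i i = 1) →
        (∀ k i j, i ≠ j → A k i j = 1 → A k j i ≠ 1) →
        (∀ k i, r + 1 ≤ ∑ j, A k i j) →
        n < Matrix.trace (List.ofFn A).prod :=
  fun n r m hn hr hm hc A h01 hd ha hrow =>
    Pool.Agent.Lib.MP_323cd4_co.five_trace n r m hn hr hm hc A h01 hd ha hrow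

end Pool.Agent.Results.MP_323cd4_co.FiveMatrices
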