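import Mathlib
import Pool.Agent.Lib.MP_323cd4_co.Linear

/-!
Seymour's question on traces of products of tournament-like matrices: products of linear length.
-/

set_option autoImplicit false

namespace Pool.Agent.Results.MP_323cd4_co.LinearLength

/-- Let `A_1, …, A_K` (`K ≥ 1`) be `n × n` matrices with entries `0` and `1`, unit diagonal and no
two opposite off-diagonal ones, and let all row sums of `A_k` be at least `r_k + 1`. If
`4 * K ^ K * r_1 ⋯ r_K > (4 n) ^ K` then the trace of `A_1 ⋯ A_K` is greater than `n`. -/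
theorem result :
    ∀ n K : ℕ, 1 ≤ n → 1 ≤ K → ∀ r : Fin K → ℕ,
      (4 * n) ^ K < 4 * (K ^ K * ∏ k, r k) →
      ∀ A : Fin K → Matrix (Fin n) (Fin n) ℕ,
        (∀ k i j, A k i j = 0 ∨ A k i j = 1) →
        (∀ k i, A k i i = 1) →
        (∀ k i j, i ≠ j → A k i j = 1 → A k j i ≠ 1) →
        (∀ k i, r k + 1 ≤ ∑ j, A k i j) →
        n < Matrix.trace (List.ofFn A).prod :=
  fun n K hn hK r hr A h01 hd ha hrow =>
    Pool.Agent.Lib.MP_323cd4_co.trace_bound n K hn hK r hr A h01 hd ha hrow

end Pool.Agent.Results.MP_323cd4_co.LinearLength
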