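import Mathlib
import Pool.Agent.Lib.MP_323cd4_co.TwoExceptions

/-!
Seymour's question on traces of products of tournament-like matrices: all but two of the matrices
belong to vertex-transitive digraphs.
-/

set_option autoImplicit false

namespace Pool.Agent.Results.MP_323cd4_co.TwoArbitrary

/-- The digraph of `M` is vertex-transitive. -/
def IsTransitive {n : ℕ} (M : Matrix (Fin n) (Fin n) ℕ) : Prop :=
  ∀ i j, ∃ σ : Equiv.Perm (Fin n), σ i = j ∧ ∀ a b, M (σ a) (σ b) = M a b

/-- Some subdigraph `S` of the digraph of `M` has at least `d` arcs from `x` to vertices other than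
`x` that are images of `x` under automorphisms of `S`. -/
def ImagesAt {n : ℕ} (M : Matrix (Fin n) (Fin n) ℕ) (d : ℕ) (x : Fin n) : Prop :=
  ∃ S : Fin n → Fin n → Prop, (∀ a b, S a b → M a b = 1) ∧
    d ≤ Set.ncard {z | z ≠ x ∧ S x z ∧
      ∃ σ : Equiv.Perm (Fin n), (∀ a b, S (σ a) (σ b) ↔ S a b) ∧ σ x = z}

/-- Let `A_1, …, A_K` be `n × n` matrices with entries `0` and `1` and unit diagonal, let all row
sums of `A_k` be at least `r_k + 1`, and let `r_1 + ⋯ + r_K ≥ n`. If all these matrices except at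
most two, `A_p` and `A_q`, are vertex-transitive or satisfy `ImagesAt _ (r_k) x` at all vertices
`x`, then the trace of `A_1 ⋯ A_K` is greater than `n`. -/
theorem result :
    ∀ n K : ℕ, 1 ≤ n → ∀ r : Fin K → ℕ, n ≤ ∑ k, r k →
      ∀ A : Fin K → Matrix (Fin n) (Fin n) ℕ,
        (∀ k i j, A k i j = 0 ∨ A k i j = 1) →
        (∀ k i, A k i i = 1) →
        (∀ k i, r k + 1 ≤ ∑ j, A k i j) →
        ∀ p q : Fin K,
          (∀ k : Fin K, k ≠ p → k ≠ q → IsTransitive (A k) ∨ ∀ x, ImagesAt (A k) (r k) x) →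
          n < Matrix.trace (List.ofFn A).prod := by
  intro n K hn r hr A h01 hd hrow p q h
  refine Pool.Agent.Lib.MP_323cd4_co.final_two n K hn r hr A h01 hd hrow p q
    (fun k hk1 hk2 x => ?_)
  rcases h k hk1 hk2 with ht | ht
  · exact Pool.Agent.Lib.MP_323cd4_co.goodAt_of_transitive (A k) (h01 k) (hd k) (r k) (hrow k) ht x
  · exact ht x

end Pool.Agent.Results.MP_323cd4_co.TwoArbitrary
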